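import Mathlib

/-!
MP_dd51f8_al.  Bounds for the growth rates of B. H. Neumann's groups `G_U`:
`2.047 ≤ λ_U ≤ (1 + √17)/2 = 2.5615…` for every `U`.
-/

namespace Pool.Agent.Results.MP_dd51f8_al.GrowthBounds

/-- `X_U`, the disjoint union of the cycles `C_j`, where `C_j = {-n_j,…,n_j}` is written as
`ZMod (u j)` (`u j = 2 n_j + 1`). -/
abbrev X (u : ℕ → ℕ) := Σ j : ℕ, ZMod (u j)

/-- `α`, the `u_j`-cycle `k ↦ k + 1` on every `C_j`. -/
def al (u : ℕ → ℕ) : Equiv.Perm (X u) :=
  Equiv.sigmaCongrRight fun j => Equiv.addRight (1 : ZMod (u j))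

/-- `β`, the 3-cycle `-1 ↦ 0 ↦ 1 ↦ -1` on every `C_j`. -/
def be (u : ℕ → ℕ) : Equiv.Perm (X u) :=
  Equiv.sigmaCongrRight fun j => Equiv.swap (-1 : ZMod (u j)) 0 * Equiv.swap (0 : ZMod (u j)) 1

/-- The generators `α, α⁻¹, β, β⁻¹`. -/
def gen (u : ℕ → ℕ) : Fin 4 → Equiv.Perm (X u) := ![al u, (al u)⁻¹, be u, (be u)⁻¹]

/-- The ball of radius `k`: products of at most `k` letters from `α, α⁻¹, β, β⁻¹`. -/
def ball (u : ℕ → ℕ) (k : ℕ) : Set (Equiv.Perm (X u)) :=
  {g | ∃ l : List (Fin 4), l.length ≤ k ∧ (l.map (gen u)).prod = g}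

/-- The growth function `β_U(k)`. -/
noncomputable def growth (u : ℕ → ℕ) (k : ℕ) : ℕ := (ball u k).ncard

/-! ### The upper bound -/

/-- Letters that may follow each other in a reduced word. -/
def ok : Fin 4 → Fin 4 → Bool :=
  ![![true, false, true, true], ![false, true, true, true], ![true, true, false, false],
    ![true, true, false, false]]

/-- Reduced words of length `n + 1` with first letter `s`. -/
def RW : ℕ → Fin 4 → Finset (List (Fin 4))
  | 0, s => {[s]}
  | n + 1, s => ((Finset.univ.filter fun t => ok s t).biUnion (RW n)).image (List.cons s)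

/-- Reduced words of length at most `k`. -/
def RR (k : ℕ) : Finset (List (Fin 4)) :=
  {[]} ∪ (Finset.range k).biUnion fun n => Finset.univ.biUnion (RW n)

theorem mem_RR {k n : ℕ} {s : Fin 4} {l : List (Fin 4)} (hn : n < k) (h : l ∈ RW n s) :
    l ∈ RR k := by
  unfold RR
  rw [Finset.mem_union]
  right
  rw [Finset.mem_biUnion]
  exact ⟨n, Finset.mem_range.mpr hn, Finset.mem_biUnion.mpr ⟨s, Finset.mem_univ _, h⟩⟩

theorem nil_mem_RR (k : ℕ) : [] ∈ RR k := by
  unfold RR; simp

theorem cases_RR {k : ℕ} {l : List (Fin 4)} (h : l ∈ RR k) :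
    l = [] ∨ ∃ n s, n < k ∧ l ∈ RW n s := by
  unfold RR at h
  rw [Finset.mem_union, Finset.mem_singleton, Finset.mem_biUnion] at h
  rcases h with h | ⟨n, hn, h⟩
  · left; exact h
  · right
    rw [Finset.mem_biUnion] at h
    obtain ⟨s, _, h⟩ := h
    exact ⟨n, s, Finset.mem_range.mp hn, h⟩

theorem cons_mem_RW {n : ℕ} {s t : Fin 4} {l : List (Fin 4)} (h : l ∈ RW n t)
    (hst : ok s t = true) : s :: l ∈ RW (n + 1) s := by
  rw [RW, Finset.mem_image]
  exact ⟨l, Finset.mem_biUnion.mpr ⟨t, by simp [hst], h⟩, rfl⟩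

theorem cases_RW {n : ℕ} {s : Fin 4} {l : List (Fin 4)} (h : l ∈ RW n s) :
    ∃ r, l = s :: r ∧ (r = [] ∨ ∃ m t, n = m + 1 ∧ ok s t = true ∧ r ∈ RW m t) := by
  cases n with
  | zero =>
    rw [RW, Finset.mem_singleton] at h
    exact ⟨[], h, Or.inl rfl⟩
  | succ m =>
    rw [RW, Finset.mem_image] at h
    obtain ⟨r, hr, rfl⟩ := h
    rw [Finset.mem_biUnion] at hr
    obtain ⟨t, ht, hr⟩ := hr
    rw [Finset.mem_filter] at ht
    exact ⟨r, rfl, Or.inr ⟨m, t, rfl, ht.2, hr⟩⟩

theorem neg_one_ne_zero' {N : ℕ} (hN : 5 ≤ N) : (-1 : ZMod N) ≠ 0 := by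
  have : Fact (1 < N) := ⟨by omega⟩
  simp

theorem one_ne_zero' {N : ℕ} (hN : 5 ≤ N) : (1 : ZMod N) ≠ 0 := by
  have : Fact (1 < N) := ⟨by omega⟩
  simp

/-- A small multiple of `1` is not zero. -/
theorem nat_ne_zero {N y : ℕ} (h1 : 1 ≤ y) (h2 : y < N) : (y : ZMod N) ≠ 0 := by
  intro h
  rw [ZMod.natCast_eq_zero_iff] at h
  have := Nat.le_of_dvd (by omega) h
  omega

theorem neg_one_ne_one' {N : ℕ} (hN : 5 ≤ N) : (-1 : ZMod N) ≠ 1 := by
  intro h
  have h2 : ((2 : ℕ) : ZMod N) = 0 := by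
    push_cast
    have : (2 : ZMod N) = 1 - (-1) := by ring
    rw [this, h]; ring
  exact nat_ne_zero (by norm_num) (by omega) h2

theorem be_neg_one (u : ℕ → ℕ) (j : ℕ) (hj : 5 ≤ u j) :
    be u ⟨j, -1⟩ = ⟨j, 0⟩ := by
  simp only [be, Equiv.sigmaCongrRight_apply, Sigma.map_mk, id, Equiv.Perm.mul_apply]
  rw [Equiv.swap_apply_of_ne_of_ne (neg_one_ne_zero' hj) (neg_one_ne_one' hj),
    Equiv.swap_apply_left]

theorem be_zero (u : ℕ → ℕ) (j : ℕ) (hj : 5 ≤ u j) :
    be u ⟨j, 0⟩ = ⟨j, 1⟩ := by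
  simp only [be, Equiv.sigmaCongrRight_apply, Sigma.map_mk, id, Equiv.Perm.mul_apply]
  rw [Equiv.swap_apply_left, Equiv.swap_apply_of_ne_of_ne (neg_one_ne_one' hj).symm
    (one_ne_zero' hj)]

theorem be_one (u : ℕ → ℕ) (j : ℕ) :
    be u ⟨j, 1⟩ = ⟨j, -1⟩ := by
  simp only [be, Equiv.sigmaCongrRight_apply, Sigma.map_mk, id, Equiv.Perm.mul_apply]
  rw [Equiv.swap_apply_right, Equiv.swap_apply_right]

theorem be_fix (u : ℕ → ℕ) (j : ℕ) (x : ZMod (u j)) (h1 : x ≠ -1) (h2 : x ≠ 0)
    (h3 : x ≠ 1) : be u ⟨j, x⟩ = ⟨j, x⟩ := by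
  simp only [be, Equiv.sigmaCongrRight_apply, Sigma.map_mk, id, Equiv.Perm.mul_apply]
  rw [Equiv.swap_apply_of_ne_of_ne h2 h3, Equiv.swap_apply_of_ne_of_ne h1 h2]

theorem be_cube (u : ℕ → ℕ) (hu : ∀ j, 5 ≤ u j) : be u * be u * be u = 1 := by
  ext1 ⟨j, x⟩
  simp only [Equiv.Perm.mul_apply, Equiv.Perm.one_apply]
  by_cases h1 : x = -1
  · rw [h1, be_neg_one u j (hu j), be_zero u j (hu j), be_one]
  by_cases h2 : x = 0
  · rw [h2, be_zero u j (hu j), be_one, be_neg_one u j (hu j)]
  by_cases h3 : x = 1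
  · rw [h3, be_one, be_neg_one u j (hu j), be_zero u j (hu j)]
  rw [be_fix u j x h1 h2 h3, be_fix u j x h1 h2 h3, be_fix u j x h1 h2 h3]

theorem be_sq (u : ℕ → ℕ) (hu : ∀ j, 5 ≤ u j) : be u * be u = (be u)⁻¹ :=
  eq_inv_of_mul_eq_one_left (be_cube u hu)

theorem be_inv_sq (u : ℕ → ℕ) (hu : ∀ j, 5 ≤ u j) : (be u)⁻¹ * (be u)⁻¹ = be u := by
  rw [← be_sq u hu]
  have h := be_cube u hu
  calc be u * be u * (be u * be u) = be u * be u * be u * be u := by group
    _ = be u := by rw [h, one_mul]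

/-- Every word equals a reduced word that is not longer. -/
theorem reduce (u : ℕ → ℕ) (hu : ∀ j, 5 ≤ u j) (l : List (Fin 4)) :
    ∃ r ∈ RR l.length, (r.map (gen u)).prod = (l.map (gen u)).prod := by
  induction l with
  | nil => exact ⟨[], nil_mem_RR _, rfl⟩
  | cons s l ih =>
    obtain ⟨r, hr, hp⟩ := ih
    have hlen : (s :: l).length = l.length + 1 := rfl
    rw [hlen, List.map_cons, List.prod_cons, ← hp]
    rcases cases_RR hr with rfl | ⟨n, t, hn, hr'⟩
    · refine ⟨[s], mem_RR (n := 0) (s := s) (by omega) (by rw [RW]; simp), by simp⟩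
    · by_cases hst : ok s t = true
      · exact ⟨s :: r, mem_RR (by omega) (cons_mem_RW hr' hst), by simp⟩
      · obtain ⟨q, rfl, hq⟩ := cases_RW hr'
        rw [List.map_cons, List.prod_cons, ← mul_assoc]
        -- the tail is reduced
        have htail : q ∈ RR (l.length + 1) := by
          rcases hq with rfl | ⟨m, t', hm, _, hq⟩
          · exact nil_mem_RR _
          · exact mem_RR (by omega) hq
        have key : (gen u s * gen u t = 1) ∨ ∃ w : Fin 4, gen u s * gen u t = gen u w ∧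
            ∀ t', ok t t' = true → ok w t' = true := by
          fin_cases s <;> fin_cases t <;> simp [ok] at hst
          · left; simp [gen]
          · left; simp [gen]
          · right; exact ⟨3, by simpa [gen] using be_sq u hu, by decide⟩
          · left; simp [gen]
          · left; simp [gen]
          · right; exact ⟨2, by simpa [gen] using be_inv_sq u hu, by decide⟩
        rcases key with key | ⟨w, key, hw⟩
        · exact ⟨q, htail, by rw [key, one_mul]⟩
        · refine ⟨w :: q, ?_, by rw [key]; simp⟩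
          rcases hq with rfl | ⟨m, t', hm, hok, hq⟩
          · exact mem_RR (n := 0) (s := w) (by omega) (by rw [RW]; simp)
          · exact mem_RR (by omega) (cons_mem_RW hq (hw t' hok))

/-- `(1 + √17)/2`. -/
noncomputable def lam : ℝ := (1 + √17) / 2

theorem lam_sq : lam ^ 2 = lam + 4 := by
  unfold lam
  have h : √(17 : ℝ) ^ 2 = 17 := Real.sq_sqrt (by norm_num)
  nlinarith

theorem lam_ge : 2 ≤ lam := by
  unfold lam
  have h : (3 : ℝ) ≤ √17 := Real.le_sqrt_of_sq_le (by norm_num)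
  linarith

theorem lam_le : lam ≤ 4 := by
  unfold lam
  have h : √(17 : ℝ) ≤ 7 := by
    rw [Real.sqrt_le_left (by norm_num)]; norm_num
  linarith

theorem card_RW_succ (n : ℕ) (s : Fin 4) :
    ((RW (n + 1) s).card : ℝ) ≤ ∑ t : Fin 4, if ok s t = true then ((RW n t).card : ℝ) else 0 := by
  have h : (RW (n + 1) s).card ≤ ∑ t : Fin 4, if ok s t = true then (RW n t).card else 0 := by
    rw [RW]
    refine Finset.card_image_le.trans (Finset.card_biUnion_le.trans ?_)
    rw [Finset.sum_filter]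
  refine (Nat.cast_le.mpr h).trans (le_of_eq ?_)
  push_cast
  rfl

theorem card_RW (n : ℕ) :
    ((RW n 0).card : ℝ) ≤ 2 * lam ^ n ∧ ((RW n 1).card : ℝ) ≤ 2 * lam ^ n ∧
    ((RW n 2).card : ℝ) ≤ 4 / lam * lam ^ n ∧ ((RW n 3).card : ℝ) ≤ 4 / lam * lam ^ n := by
  have h0 : 0 < lam := by linarith [lam_ge]
  have h1 : 1 ≤ 4 / lam := by rw [le_div_iff₀ h0]; linarith [lam_le]
  have h2 : 4 / lam * lam = 4 := by field_simp
  induction n with
  | zero =>
    refine ⟨?_, ?_, ?_, ?_⟩ <;> rw [RW] <;> simp <;> linarith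
  | succ n ih =>
    obtain ⟨a0, a1, a2, a3⟩ := ih
    have hp : 0 ≤ lam ^ n := by positivity
    have e1 : 2 * lam ^ n + (4 / lam * lam ^ n + 4 / lam * lam ^ n) = 2 * lam ^ (n + 1) := by
      have : 2 + (4 / lam + 4 / lam) = 2 * lam := by
        field_simp
        nlinarith [lam_sq]
      calc _ = (2 + (4 / lam + 4 / lam)) * lam ^ n := by ring
        _ = 2 * lam ^ (n + 1) := by rw [this]; ring
    have e2 : 2 * lam ^ n + 2 * lam ^ n = 4 / lam * lam ^ (n + 1) := by
      calc _ = 4 * lam ^ n := by ring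
        _ = (4 / lam * lam) * lam ^ n := by rw [h2]
        _ = 4 / lam * lam ^ (n + 1) := by ring
    refine ⟨?_, ?_, ?_, ?_⟩
    · refine (card_RW_succ n 0).trans ?_
      rw [Fin.sum_univ_four]
      simp [ok]
      linarith
    · refine (card_RW_succ n 1).trans ?_
      rw [Fin.sum_univ_four]
      simp [ok]
      linarith
    · refine (card_RW_succ n 2).trans ?_
      rw [Fin.sum_univ_four]
      simp [ok]
      linarith
    · refine (card_RW_succ n 3).trans ?_
      rw [Fin.sum_univ_four]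
      simp [ok]
      linarith

theorem card_RR (k : ℕ) : ((RR k).card : ℝ) ≤ 1 + 8 * k * lam ^ k := by
  have h0 : 0 < lam := by linarith [lam_ge]
  have h1 : 4 / lam ≤ 2 := by rw [div_le_iff₀ h0]; linarith [lam_ge]
  have hc : (RR k).card ≤ 1 + ∑ n ∈ Finset.range k, ∑ s : Fin 4, (RW n s).card := by
    unfold RR
    refine (Finset.card_union_le _ _).trans ?_
    rw [Finset.card_singleton]
    refine Nat.add_le_add_left (Finset.card_biUnion_le.trans ?_) _
    exact Finset.sum_le_sum fun n _ => Finset.card_biUnion_le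
  have hc' : ((RR k).card : ℝ) ≤ 1 + ∑ n ∈ Finset.range k, ∑ s : Fin 4, ((RW n s).card : ℝ) := by
    exact_mod_cast hc
  refine hc'.trans ?_
  have : ∑ n ∈ Finset.range k, ∑ s : Fin 4, ((RW n s).card : ℝ) ≤
      ∑ n ∈ Finset.range k, 8 * lam ^ k := by
    apply Finset.sum_le_sum
    intro n hn
    rw [Finset.mem_range] at hn
    obtain ⟨a0, a1, a2, a3⟩ := card_RW n
    rw [Fin.sum_univ_four]
    have hp : 0 ≤ lam ^ n := by positivity
    have hk : lam ^ n ≤ lam ^ k := pow_le_pow_right₀ (by linarith [lam_ge]) hn.le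
    have h3 : 4 / lam * lam ^ n ≤ 2 * lam ^ n := mul_le_mul_of_nonneg_right h1 hp
    linarith
  rw [Finset.sum_const, Finset.card_range, nsmul_eq_mul] at this
  linarith

theorem ball_subset (u : ℕ → ℕ) (hu : ∀ j, 5 ≤ u j) (k : ℕ) :
    ball u k ⊆ (fun r : List (Fin 4) => (r.map (gen u)).prod) '' (RR k : Set (List (Fin 4))) := by
  rintro g ⟨l, hl, rfl⟩
  obtain ⟨r, hr, hp⟩ := reduce u hu l
  refine ⟨r, ?_, hp⟩
  rcases cases_RR hr with rfl | ⟨n, s, hn, hr'⟩
  · exact nil_mem_RR k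
  · exact mem_RR (by omega) hr'

theorem ball_finite (u : ℕ → ℕ) (hu : ∀ j, 5 ≤ u j) (k : ℕ) : (ball u k).Finite :=
  ((RR k).finite_toSet.image _).subset (ball_subset u hu k)

theorem growth_le (u : ℕ → ℕ) (hu : ∀ j, 5 ≤ u j) (k : ℕ) :
    (growth u k : ℝ) ≤ 1 + 8 * k * lam ^ k := by
  have h1 : growth u k ≤ (RR k).card := by
    unfold growth
    refine (Set.ncard_le_ncard (ball_subset u hu k) ((RR k).finite_toSet.image _)).trans ?_
    refine (Set.ncard_image_le (RR k).finite_toSet).trans ?_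
    rw [Set.ncard_coe_finset]
  exact (Nat.cast_le.mpr h1).trans (card_RR k)

/-! ### The lower bound -/

/-- The five blocks. -/
def bw : Fin 5 → List (Fin 4) :=
  ![[0], [0, 2], [0, 3], [0, 2, 1, 3, 0], [0, 3, 1, 1, 3, 0, 0]]

/-- Their lengths. -/
def cost : Fin 5 → ℕ := ![1, 2, 2, 5, 7]

/-- The word of a list of blocks. -/
def word : List (Fin 5) → List (Fin 4)
  | [] => []
  | i :: L => word L ++ bw i

theorem length_word (L : List (Fin 5)) : (word L).length = (L.map cost).sum := by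
  induction L with
  | nil => rfl
  | cons i L ih =>
    rw [word, List.length_append, ih, List.map_cons, List.sum_cons, add_comm]
    congr 1
    fin_cases i <;> rfl

theorem length_le_cost (L : List (Fin 5)) : L.length ≤ (L.map cost).sum := by
  induction L with
  | nil => simp
  | cons i L ih =>
    rw [List.map_cons, List.sum_cons, List.length_cons]
    have : 1 ≤ cost i := by fin_cases i <;> simp [cost]
    omega

/-- The group element of a list of blocks. -/
def F (u : ℕ → ℕ) (L : List (Fin 5)) : Equiv.Perm (X u) := ((word L).map (gen u)).prod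

/-- The group element of a block. -/
def B (u : ℕ → ℕ) (i : Fin 5) : Equiv.Perm (X u) := ((bw i).map (gen u)).prod

theorem F_cons (u : ℕ → ℕ) (i : Fin 5) (L : List (Fin 5)) : F u (i :: L) = F u L * B u i := by
  unfold F B
  rw [word, List.map_append, List.prod_append]

theorem al_apply (u : ℕ → ℕ) (j : ℕ) (x : ZMod (u j)) : al u ⟨j, x⟩ = ⟨j, x + 1⟩ := rfl

theorem al_inv_apply (u : ℕ → ℕ) (j : ℕ) (x : ZMod (u j)) : (al u)⁻¹ ⟨j, x⟩ = ⟨j, x - 1⟩ := by
  rw [Equiv.Perm.inv_eq_iff_eq, al_apply]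
  simp

theorem be_inv_neg_one (u : ℕ → ℕ) (j : ℕ) : (be u)⁻¹ ⟨j, -1⟩ = ⟨j, 1⟩ := by
  rw [Equiv.Perm.inv_eq_iff_eq, be_one]

theorem natcast_inj {N a b : ℕ} (ha : a < N) (hb : b < N) (h : (a : ZMod N) = b) : a = b := by
  rw [ZMod.natCast_eq_natCast_iff', Nat.mod_eq_of_lt ha, Nat.mod_eq_of_lt hb] at h
  exact h

theorem be_nat (u : ℕ → ℕ) (j y : ℕ) (h1 : 2 ≤ y) (h2 : y + 2 ≤ u j) :
    be u ⟨j, (y : ZMod (u j))⟩ = ⟨j, (y : ZMod (u j))⟩ := by
  apply be_fix
  · intro h
    have : ((y + 1 : ℕ) : ZMod (u j)) = 0 := by push_cast; rw [h]; ring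
    exact nat_ne_zero (by omega) (by omega) this
  · exact nat_ne_zero (by omega) (by omega)
  · intro h
    have : ((1 : ℕ) : ZMod (u j)) = (y : ℕ) := by rw [h]; simp
    have := natcast_inj (by omega) (by omega) this
    omega

theorem be_inv_nat (u : ℕ → ℕ) (j y : ℕ) (h1 : 2 ≤ y) (h2 : y + 2 ≤ u j) :
    (be u)⁻¹ ⟨j, (y : ZMod (u j))⟩ = ⟨j, (y : ZMod (u j))⟩ := by
  rw [Equiv.Perm.inv_eq_iff_eq, be_nat u j y h1 h2]

theorem B_three (u : ℕ → ℕ) :
    B u 3 = al u * (be u * ((al u)⁻¹ * ((be u)⁻¹ * al u))) := by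
  simp [B, bw, gen]

theorem B_four (u : ℕ → ℕ) :
    B u 4 = al u * ((be u)⁻¹ * ((al u)⁻¹ * ((al u)⁻¹ * ((be u)⁻¹ * (al u * al u))))) := by
  simp [B, bw, gen]

theorem B_move (u : ℕ → ℕ) (i : Fin 5) (j y : ℕ) (h1 : 2 ≤ y) (h2 : y + 4 ≤ u j) :
    B u i ⟨j, (y : ZMod (u j))⟩ = ⟨j, ((y + 1 : ℕ) : ZMod (u j))⟩ := by
  have a0 : ∀ z : ℕ, al u ⟨j, (z : ZMod (u j))⟩ = ⟨j, ((z + 1 : ℕ) : ZMod (u j))⟩ := by
    intro z; rw [al_apply]; push_cast; rfl
  have a1 : ∀ z : ℕ, (al u)⁻¹ ⟨j, ((z + 1 : ℕ) : ZMod (u j))⟩ = ⟨j, (z : ZMod (u j))⟩ := by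
    intro z; rw [al_inv_apply]; push_cast; simp
  fin_cases i
  · simp only [B, bw, gen, Fin.isValue, Fin.zero_eta, Matrix.cons_val_zero, List.map_cons,
      List.map_nil, List.prod_cons, List.prod_nil, mul_one, a0]
  · simp [B, bw, gen, Equiv.Perm.mul_apply, a0, be_nat u j y h1 (by omega)]
  · simp [B, bw, gen, Equiv.Perm.mul_apply, a0, be_inv_nat u j y h1 (by omega)]
  · show B u 3 _ = _
    rw [B_three]
    simp only [Equiv.Perm.mul_apply]
    rw [a0 y, be_inv_nat u j (y + 1) (by omega) (by omega), a1 y, be_nat u j y h1 (by omega), a0 y]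
  · show B u 4 _ = _
    rw [B_four]
    simp only [Equiv.Perm.mul_apply]
    rw [a0 y, a0 (y + 1), be_inv_nat u j (y + 1 + 1) (by omega) (by omega), a1 (y + 1), a1 y,
      be_inv_nat u j y h1 (by omega), a0 y]

/-- The point that the block `i` moves to `2`. -/
def pt (N : ℕ) (i : Fin 5) : ZMod N := 1 - ((i : ℕ) : ZMod N)

theorem B_pt (u : ℕ → ℕ) (i : Fin 5) (j : ℕ) (hj : 5 ≤ u j) :
    B u i ⟨j, pt (u j) i⟩ = ⟨j, 2⟩ := by
  have hz : be u ⟨j, 0⟩ = ⟨j, 1⟩ := be_zero u j hj
  have hm : (be u)⁻¹ ⟨j, -1⟩ = ⟨j, 1⟩ := be_inv_neg_one u j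
  fin_cases i
  · have e : pt (u j) 0 = 1 := by simp [pt]
    show B u 0 ⟨j, pt (u j) 0⟩ = _
    rw [e]
    simp only [B, bw, gen, Fin.isValue, Matrix.cons_val_zero, List.map_cons,
      List.map_nil, List.prod_cons, List.prod_nil, mul_one, al_apply]
    norm_num
  · have e : pt (u j) 1 = 0 := by simp [pt]
    show B u 1 ⟨j, pt (u j) 1⟩ = _
    have e2 : B u 1 = al u * be u := by simp [B, bw, gen]
    rw [e, e2, Equiv.Perm.mul_apply, hz, al_apply]
    norm_num
  · have e : pt (u j) 2 = -1 := by simp [pt]; norm_num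
    show B u 2 ⟨j, pt (u j) 2⟩ = _
    have e2 : B u 2 = al u * (be u)⁻¹ := by simp [B, bw, gen]
    rw [e, e2, Equiv.Perm.mul_apply, hm, al_apply]
    norm_num
  · have e : pt (u j) 3 = -2 := by simp [pt]; norm_num
    show B u 3 ⟨j, pt (u j) 3⟩ = _
    rw [e, B_three]
    simp only [Equiv.Perm.mul_apply]
    have e1 : al u ⟨j, -2⟩ = ⟨j, -1⟩ := by
      rw [al_apply]
      have : (-2 : ZMod (u j)) + 1 = -1 := by ring
      rw [this]
    have e2 : (al u)⁻¹ ⟨j, 1⟩ = ⟨j, 0⟩ := by
      rw [al_inv_apply, sub_self]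
    rw [e1, hm, e2, hz, al_apply]
    norm_num
  · have e : pt (u j) 4 = -3 := by simp [pt]; norm_num
    show B u 4 ⟨j, pt (u j) 4⟩ = _
    rw [e, B_four]
    simp only [Equiv.Perm.mul_apply]
    have e0 : al u ⟨j, -3⟩ = ⟨j, -2⟩ := by
      rw [al_apply]
      have : (-3 : ZMod (u j)) + 1 = -2 := by ring
      rw [this]
    have e1 : al u ⟨j, -2⟩ = ⟨j, -1⟩ := by
      rw [al_apply]
      have : (-2 : ZMod (u j)) + 1 = -1 := by ring
      rw [this]
    have e2 : (al u)⁻¹ ⟨j, 1⟩ = ⟨j, 0⟩ := by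
      rw [al_inv_apply, sub_self]
    have e3 : (al u)⁻¹ ⟨j, 0⟩ = ⟨j, -1⟩ := by
      rw [al_inv_apply, zero_sub]
    rw [e0, e1, hm, e2, e3, hm, al_apply]
    norm_num

theorem pt_inj {N : ℕ} (hN : 5 ≤ N) {i i' : Fin 5} (h : pt N i = pt N i') : i = i' := by
  unfold pt at h
  have h2 : (((i : ℕ)) : ZMod N) = ((i' : ℕ)) := by
    have := sub_right_inj.mp h
    exact this
  have := natcast_inj (by omega) (by omega) h2
  exact Fin.ext this

theorem F_move (u : ℕ → ℕ) (j : ℕ) (L : List (Fin 5)) : ∀ y : ℕ, 2 ≤ y →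
    y + L.length + 4 ≤ u j →
    F u L ⟨j, (y : ZMod (u j))⟩ = ⟨j, ((y + L.length : ℕ) : ZMod (u j))⟩ := by
  induction L with
  | nil => intro y _ _; simp [F, word]
  | cons i L ih =>
    intro y h1 h2
    rw [List.length_cons] at h2
    rw [F_cons, Equiv.Perm.mul_apply, B_move u i j y h1 (by omega),
      ih (y + 1) (by omega) (by omega), List.length_cons]
    have e : y + 1 + L.length = y + (L.length + 1) := by omega
    rw [e]

theorem length_eq (u : ℕ → ℕ) (j : ℕ) (L L' : List (Fin 5)) (h1 : L.length + 8 ≤ u j)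
    (h2 : L'.length + 8 ≤ u j) (h : F u L = F u L') : L.length = L'.length := by
  have a := F_move u j L 2 le_rfl (by omega)
  have b := F_move u j L' 2 le_rfl (by omega)
  rw [h, b] at a
  have c := natcast_inj (N := u j) (by omega) (by omega) (eq_of_heq (Sigma.mk.inj a).2)
  omega

theorem F_inj (u : ℕ → ℕ) (j : ℕ) (L : List (Fin 5)) : ∀ L' : List (Fin 5),
    L.length + 8 ≤ u j → L'.length + 8 ≤ u j → F u L = F u L' → L = L' := by
  induction L with
  | nil =>
    intro L' h1 h2 h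
    have := length_eq u j [] L' h1 h2 h
    rw [List.length_nil] at this
    exact (List.length_eq_zero_iff.mp this.symm).symm
  | cons i L ih =>
    intro L' h1 h2 h
    have hl := length_eq u j (i :: L) L' h1 h2 h
    cases L' with
    | nil => simp at hl
    | cons i' L' =>
      rw [List.length_cons, List.length_cons] at hl
      rw [List.length_cons] at h1 h2
      have hll : L.length = L'.length := by omega
      rw [F_cons, F_cons] at h
      have two : ((2 : ℕ) : ZMod (u j)) = 2 := by norm_num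
      have e1 : (F u L * B u i) ⟨j, pt (u j) i⟩ = ⟨j, ((2 + L.length : ℕ) : ZMod (u j))⟩ := by
        rw [Equiv.Perm.mul_apply, B_pt u i j (by omega), ← two,
          F_move u j L 2 le_rfl (by omega)]
      have e2 : (F u L' * B u i') ⟨j, pt (u j) i'⟩ = ⟨j, ((2 + L'.length : ℕ) : ZMod (u j))⟩ := by
        rw [Equiv.Perm.mul_apply, B_pt u i' j (by omega), ← two,
          F_move u j L' 2 le_rfl (by omega)]
      rw [h, hll, ← e2] at e1
      have e3 := (F u L' * B u i').injective e1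
      have e4 : i = i' := pt_inj (by omega) (eq_of_heq (Sigma.mk.inj e3).2)
      subst e4
      have e5 : F u L = F u L' := mul_right_cancel h
      rw [ih L' (by omega) (by omega) e5]

/-- Many lists of blocks of a given total cost. -/
theorem many (n : ℕ) : ∃ S : Finset (List (Fin 5)), (∀ L ∈ S, (L.map cost).sum = n) ∧
    (1 / 80 : ℝ) * (2047 / 1000) ^ n ≤ S.card := by
  induction n using Nat.strong_induction_on with
  | _ n ih =>
    rcases lt_or_ge n 7 with hn | hn
    · refine ⟨{List.replicate n 0}, ?_, ?_⟩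
      · intro L hL
        rw [Finset.mem_singleton] at hL
        rw [hL]
        simp [cost]
      · rw [Finset.card_singleton]
        interval_cases n <;> norm_num
    · obtain ⟨m, rfl⟩ : ∃ m, n = m + 7 := ⟨n - 7, by omega⟩
      obtain ⟨S6, a6, b6⟩ := ih (m + 6) (by omega)
      obtain ⟨S5, a5, b5⟩ := ih (m + 5) (by omega)
      obtain ⟨S2, a2, b2⟩ := ih (m + 2) (by omega)
      obtain ⟨S0, a0, b0⟩ := ih m (by omega)
      let T : Fin 5 → Finset (List (Fin 5)) := ![S6, S5, S5, S2, S0]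
      refine ⟨Finset.univ.biUnion fun i => (T i).image (List.cons i), ?_, ?_⟩
      · intro L hL
        rw [Finset.mem_biUnion] at hL
        obtain ⟨i, _, hL⟩ := hL
        rw [Finset.mem_image] at hL
        obtain ⟨L', hL', rfl⟩ := hL
        rw [List.map_cons, List.sum_cons]
        fin_cases i
        · have := a6 L' hL'; simp [cost] at *; omega
        · have := a5 L' hL'; simp [cost] at *; omega
        · have := a5 L' hL'; simp [cost] at *; omega
        · have := a2 L' hL'; simp [cost] at *; omega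
        · have := a0 L' hL'; simp [cost] at *; omega
      · have hcard : (Finset.univ.biUnion fun i => (T i).image (List.cons i)).card =
            ∑ i : Fin 5, (T i).card := by
          rw [Finset.card_biUnion]
          · apply Finset.sum_congr rfl
            intro i _
            exact Finset.card_image_of_injective _ (List.cons_injective)
          · intro i _ i' _ hne
            show Disjoint _ _
            rw [Finset.disjoint_left]
            intro L h1 h2
            rw [Finset.mem_image] at h1 h2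
            obtain ⟨L1, _, rfl⟩ := h1
            obtain ⟨L2, _, h2⟩ := h2
            exact hne (List.cons.inj h2).1.symm
        rw [hcard, Fin.sum_univ_five]
        have hT : ((T 0).card : ℝ) = S6.card ∧ ((T 1).card : ℝ) = S5.card ∧
            ((T 2).card : ℝ) = S5.card ∧ ((T 3).card : ℝ) = S2.card ∧
            ((T 4).card : ℝ) = S0.card := ⟨rfl, rfl, rfl, rfl, rfl⟩
        push_cast
        rw [hT.1, hT.2.1, hT.2.2.1, hT.2.2.2.1, hT.2.2.2.2]
        have hp : (0 : ℝ) < (2047 / 1000) ^ m := by positivity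
        have key : (1 / 80 : ℝ) * (2047 / 1000) ^ (m + 7) ≤
            1 / 80 * (2047 / 1000) ^ (m + 6) + 1 / 80 * (2047 / 1000) ^ (m + 5) +
            1 / 80 * (2047 / 1000) ^ (m + 5) + 1 / 80 * (2047 / 1000) ^ (m + 2) +
            1 / 80 * (2047 / 1000) ^ m := by
          have e : (1 / 80 : ℝ) * (2047 / 1000) ^ (m + 6) + 1 / 80 * (2047 / 1000) ^ (m + 5) +
            1 / 80 * (2047 / 1000) ^ (m + 5) + 1 / 80 * (2047 / 1000) ^ (m + 2) +
            1 / 80 * (2047 / 1000) ^ m - (1 / 80 : ℝ) * (2047 / 1000) ^ (m + 7) =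
            (1 / 80) * ((2047 / 1000 : ℝ) ^ 6 + 2 * (2047 / 1000) ^ 5 + (2047 / 1000) ^ 2 + 1 -
              (2047 / 1000) ^ 7) * (2047 / 1000) ^ m := by ring
          have e2 : (0 : ℝ) ≤ (1 / 80) * ((2047 / 1000 : ℝ) ^ 6 + 2 * (2047 / 1000) ^ 5 +
              (2047 / 1000) ^ 2 + 1 - (2047 / 1000) ^ 7) := by norm_num
          have e3 := mul_nonneg e2 hp.le
          linarith
        linarith

theorem growth_ge (u : ℕ → ℕ) (hm : StrictMono u) (hu : ∀ j, 5 ≤ u j) (k : ℕ) :
    (1 / 80 : ℝ) * (2047 / 1000) ^ k ≤ growth u k := by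
  obtain ⟨S, hS, hc⟩ := many k
  refine hc.trans ?_
  have hj : k + 8 ≤ u (k + 8) := hm.le_apply
  have hinj : Set.InjOn (F u) (S : Set (List (Fin 5))) := by
    intro L hL L' hL' h
    have h1 := length_le_cost L
    have h2 := length_le_cost L'
    rw [hS L hL] at h1
    rw [hS L' hL'] at h2
    exact F_inj u (k + 8) L L' (by omega) (by omega) h
  have hsub : (F u) '' (S : Set (List (Fin 5))) ⊆ ball u k := by
    rintro g ⟨L, hL, rfl⟩
    exact ⟨word L, by rw [length_word, hS L hL], rfl⟩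
  have h1 : S.card ≤ growth u k := by
    unfold growth
    rw [← Set.ncard_coe_finset S, ← Set.ncard_image_of_injOn hinj]
    exact Set.ncard_le_ncard hsub (ball_finite u hu k)
  exact_mod_cast h1

/-! ### The growth rate -/

theorem growth_mul (u : ℕ → ℕ) (hu : ∀ j, 5 ≤ u j) (m n : ℕ) :
    growth u (m + n) ≤ growth u m * growth u n := by
  unfold growth
  have hsub : ball u (m + n) ⊆ (fun p : Equiv.Perm (X u) × Equiv.Perm (X u) => p.1 * p.2) ''
      (ball u m ×ˢ ball u n) := by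
    rintro g ⟨l, hl, rfl⟩
    refine ⟨(((l.take m).map (gen u)).prod, ((l.drop m).map (gen u)).prod), ⟨⟨_, ?_, rfl⟩,
      ⟨_, ?_, rfl⟩⟩, ?_⟩
    · simp
    · simp; omega
    · show ((l.take m).map (gen u)).prod * ((l.drop m).map (gen u)).prod = _
      rw [← List.prod_append, ← List.map_append, List.take_append_drop]
  have hfin : (ball u m ×ˢ ball u n).Finite := (ball_finite u hu m).prod (ball_finite u hu n)
  refine (Set.ncard_le_ncard hsub (hfin.image _)).trans ?_
  refine (Set.ncard_image_le hfin).trans ?_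
  rw [Set.ncard_prod]

theorem growth_pos (u : ℕ → ℕ) (hu : ∀ j, 5 ≤ u j) (k : ℕ) : 1 ≤ growth u k := by
  unfold growth
  rw [Nat.succ_le_iff, Set.ncard_pos (ball_finite u hu k)]
  exact ⟨1, [], by simp, by simp⟩

/-- **MP_dd51f8_al.**  For every strictly increasing sequence `u` of odd integers with first term
at least `5` the growth rate `λ_U` of B. H. Neumann's group `G_U` exists and satisfies
`2.047 ≤ λ_U ≤ (1 + √17)/2`. -/
theorem result (u : ℕ → ℕ) (hm : StrictMono u) (_hodd : ∀ j, Odd (u j)) (h5 : 5 ≤ u 0) :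
    ∃ L : ℝ, Filter.Tendsto (fun k : ℕ => (growth u k : ℝ) ^ (1 / (k : ℝ))) Filter.atTop (nhds L) ∧
      2047 / 1000 ≤ L ∧ L ≤ (1 + √17) / 2 := by
  have hu : ∀ j, 5 ≤ u j := fun j => h5.trans (hm.monotone (Nat.zero_le j))
  have hg : ∀ k, (1 : ℝ) ≤ growth u k := fun k => by exact_mod_cast growth_pos u hu k
  have hsub : Subadditive fun k => Real.log (growth u k) := by
    intro m n
    have h1 : (growth u (m + n) : ℝ) ≤ growth u m * growth u n := by
      exact_mod_cast growth_mul u hu m n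
    have hm0 : (0 : ℝ) < growth u m := by linarith [hg m]
    have hn0 : (0 : ℝ) < growth u n := by linarith [hg n]
    rw [← Real.log_mul hm0.ne' hn0.ne']
    exact Real.log_le_log (by linarith [hg (m + n)]) h1
  have hbdd : BddBelow (Set.range fun k : ℕ => Real.log (growth u k) / k) := by
    refine ⟨0, ?_⟩
    rintro x ⟨k, rfl⟩
    exact div_nonneg (Real.log_nonneg (hg k)) (Nat.cast_nonneg k)
  have hlim := hsub.tendsto_lim hbdd
  set l := hsub.lim with hl
  have hinv : Filter.Tendsto (fun k : ℕ => (1 : ℝ) / k) Filter.atTop (nhds 0) :=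
    tendsto_one_div_atTop_nhds_zero_nat
  refine ⟨Real.exp l, ?_, ?_, ?_⟩
  · have h1 := (Real.continuous_exp.tendsto l).comp hlim
    refine h1.congr fun k => ?_
    rw [Function.comp_apply, Real.rpow_def_of_pos (by linarith [hg k])]
    congr 1
    ring
  · have hx : (0 : ℝ) < 2047 / 1000 := by norm_num
    rw [← Real.exp_log hx]
    apply Real.exp_le_exp.mpr
    have h1 : Filter.Tendsto (fun k : ℕ => Real.log (1 / 80) * ((1 : ℝ) / k) +
        Real.log (2047 / 1000)) Filter.atTop (nhds (Real.log (1 / 80) * 0 +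
        Real.log (2047 / 1000))) := (hinv.const_mul _).add_const _
    rw [mul_zero, zero_add] at h1
    refine le_of_tendsto_of_tendsto h1 hlim ?_
    filter_upwards [Filter.eventually_ge_atTop 1] with k hk
    have hk0 : (0 : ℝ) < k := by exact_mod_cast hk
    rw [le_div_iff₀ hk0]
    have h2 := Real.log_le_log (by positivity) (growth_ge u hm hu k)
    rw [Real.log_mul (by norm_num) (by positivity), Real.log_pow] at h2
    have e : (Real.log (1 / 80) * (1 / (k : ℝ)) + Real.log (2047 / 1000)) * k =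
        Real.log (1 / 80) + k * Real.log (2047 / 1000) := by
      field_simp
    rw [e]
    exact h2
  · have hlam : (0 : ℝ) < lam := by linarith [lam_ge]
    show Real.exp l ≤ lam
    rw [← Real.exp_log hlam]
    apply Real.exp_le_exp.mpr
    have hlog : Filter.Tendsto (fun k : ℕ => Real.log k / k) Filter.atTop (nhds 0) :=
      (Real.isLittleO_log_id_atTop.tendsto_div_nhds_zero).comp tendsto_natCast_atTop_atTop
    have h1 : Filter.Tendsto (fun k : ℕ => Real.log 9 * ((1 : ℝ) / k) + Real.log k / k +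
        Real.log lam) Filter.atTop (nhds (Real.log 9 * 0 + 0 + Real.log lam)) :=
      ((hinv.const_mul _).add hlog).add_const _
    rw [mul_zero, zero_add, zero_add] at h1
    refine le_of_tendsto_of_tendsto hlim h1 ?_
    filter_upwards [Filter.eventually_ge_atTop 1] with k hk
    have hk0 : (0 : ℝ) < k := by exact_mod_cast hk
    have hk1 : (1 : ℝ) ≤ k := by exact_mod_cast hk
    rw [div_le_iff₀ hk0]
    have hp : 1 ≤ lam ^ k := one_le_pow₀ (by linarith [lam_ge])
    have h2 : (growth u k : ℝ) ≤ 9 * k * lam ^ k := by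
      have h3 := growth_le u hu k
      have h4 : (1 : ℝ) ≤ k * lam ^ k := by nlinarith
      linarith
    have h3 := Real.log_le_log (by linarith [hg k]) h2
    rw [Real.log_mul (by positivity) (by positivity), Real.log_mul (by norm_num) hk0.ne',
      Real.log_pow] at h3
    have e : (Real.log 9 * (1 / (k : ℝ)) + Real.log k / k + Real.log lam) * k =
        Real.log 9 + Real.log k + k * Real.log lam := by
      field_simp
    rw [e]
    exact h3

end Pool.Agent.Results.MP_dd51f8_al.GrowthBounds
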