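import Mathlib
import Pool.Agent.Results.MP_dd51f8_al.GrowthBounds

/-!
MP_dd51f8_al.  For sparse sequences `U` the growth rate `λ_U` of B. H. Neumann's group does not
depend on `U`: it equals the growth rate `λ` of `B_∞ = ⟨A_∞, t⟩` with respect to the shift and the
3-cycle `(-1 0 1)`.
-/

namespace Pool.Agent.Results.MP_dd51f8_al.SparseEqual

open Pool.Agent.Results.MP_dd51f8_al.GrowthBounds

/-- The shift `k ↦ k + 1` of `ℤ`. -/
def tZ : Equiv.Perm ℤ := Equiv.addRight (1 : ℤ)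

/-- The 3-cycle `-1 ↦ 0 ↦ 1 ↦ -1` of `ℤ`. -/
def bZ : Equiv.Perm ℤ := Equiv.swap (-1 : ℤ) 0 * Equiv.swap (0 : ℤ) 1

/-- The generators of `B_∞` and their inverses. -/
def genZ : Fin 4 → Equiv.Perm ℤ := ![tZ, tZ⁻¹, bZ, bZ⁻¹]

/-- The ball of radius `k` of `B_∞`. -/
def ballZ (k : ℕ) : Set (Equiv.Perm ℤ) :=
  {g | ∃ l : List (Fin 4), l.length ≤ k ∧ (l.map genZ).prod = g}

/-- The growth function of `B_∞`. -/
noncomputable def growthZ (k : ℕ) : ℕ := (ballZ k).ncard

/-- The generators on one cycle. -/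
def genC (N : ℕ) : Fin 4 → Equiv.Perm (ZMod N) :=
  ![Equiv.addRight (1 : ZMod N), (Equiv.addRight (1 : ZMod N))⁻¹,
    Equiv.swap (-1 : ZMod N) 0 * Equiv.swap (0 : ZMod N) 1,
    (Equiv.swap (-1 : ZMod N) 0 * Equiv.swap (0 : ZMod N) 1)⁻¹]

theorem ais {α : Type*} (f : Equiv.Perm α) (x : α) : f (f⁻¹ x) = x := f.apply_symm_apply x

theorem gen_apply (u : ℕ → ℕ) (s : Fin 4) (j : ℕ) (x : ZMod (u j)) :
    gen u s ⟨j, x⟩ = ⟨j, genC (u j) s x⟩ := by
  fin_cases s
  · rfl
  · show (al u)⁻¹ ⟨j, x⟩ = ⟨j, (Equiv.addRight (1 : ZMod (u j)))⁻¹ x⟩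
    rw [Equiv.Perm.inv_eq_iff_eq]
    show _ = (⟨j, Equiv.addRight (1 : ZMod (u j)) _⟩ : X u)
    rw [ais]
  · rfl
  · show (be u)⁻¹ ⟨j, x⟩ = ⟨j, ((Equiv.swap (-1 : ZMod (u j)) 0 *
      Equiv.swap (0 : ZMod (u j)) 1 : Equiv.Perm (ZMod (u j)))⁻¹) x⟩
    rw [Equiv.Perm.inv_eq_iff_eq]
    show _ = (⟨j, (Equiv.swap (-1 : ZMod (u j)) 0 * Equiv.swap (0 : ZMod (u j)) 1) _⟩ : X u)
    rw [ais]

theorem prod_apply (u : ℕ → ℕ) (l : List (Fin 4)) (j : ℕ) (x : ZMod (u j)) :
    (l.map (gen u)).prod ⟨j, x⟩ = ⟨j, (l.map (genC (u j))).prod x⟩ := by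
  induction l generalizing x with
  | nil => rfl
  | cons s l ih =>
    rw [List.map_cons, List.prod_cons, List.map_cons, List.prod_cons, Equiv.Perm.mul_apply,
      Equiv.Perm.mul_apply, ih, gen_apply]

theorem intcast_inj {N : ℕ} {a b : ℤ} (h : |a - b| < N) (e : (a : ZMod N) = b) : a = b := by
  have h1 : (N : ℤ) ∣ a - b := (ZMod.intCast_eq_intCast_iff_dvd_sub b a N).mp e.symm
  have h2 := Int.eq_zero_of_abs_lt_dvd h1 h
  omega

theorem bZ_neg_one : bZ (-1) = 0 := by decide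
theorem bZ_zero : bZ 0 = 1 := by decide
theorem bZ_one : bZ 1 = -1 := by decide
theorem bZ_fix (x : ℤ) (h : 1 < |x|) : bZ x = x := by
  have n1 : x ≠ -1 := by rintro rfl; simp at h
  have n2 : x ≠ 0 := by rintro rfl; simp at h
  have n3 : x ≠ 1 := by rintro rfl; simp at h
  unfold bZ
  rw [Equiv.Perm.mul_apply, Equiv.swap_apply_of_ne_of_ne n2 n3, Equiv.swap_apply_of_ne_of_ne n1 n2]

/-- The 3-cycle on a cycle of length `N` is the 3-cycle on `ℤ` near `0`. -/
theorem b_cast {N : ℕ} (hN : 5 ≤ N) (x : ℤ) (hx : |x| + 2 ≤ N) :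
    (Equiv.swap (-1 : ZMod N) 0 * Equiv.swap (0 : ZMod N) 1) (x : ZMod N) =
      ((bZ x : ℤ) : ZMod N) := by
  rw [Equiv.Perm.mul_apply]
  have n1 : (-1 : ZMod N) ≠ 0 := neg_one_ne_zero' hN
  have n2 : (1 : ZMod N) ≠ 0 := one_ne_zero' hN
  have n3 : (-1 : ZMod N) ≠ 1 := neg_one_ne_one' hN
  by_cases h1 : x = -1
  · subst h1
    rw [bZ_neg_one]
    push_cast
    rw [Equiv.swap_apply_of_ne_of_ne n1 n3, Equiv.swap_apply_left]
  by_cases h2 : x = 0
  · subst h2
    rw [bZ_zero]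
    push_cast
    rw [Equiv.swap_apply_left, Equiv.swap_apply_of_ne_of_ne n3.symm n2]
  by_cases h3 : x = 1
  · subst h3
    rw [bZ_one]
    push_cast
    rw [Equiv.swap_apply_right, Equiv.swap_apply_right]
  have hx1 : 1 < |x| := by
    rcases abs_cases x with h | h <;> omega
  have hx0 := abs_nonneg x
  rw [bZ_fix x hx1]
  have m1 : (x : ZMod N) ≠ -1 := by
    intro h
    apply h1
    apply intcast_inj (N := N)
    · rcases abs_cases x with h | h <;> rcases abs_cases (x - -1) with h' | h' <;> omega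
    · rw [h]; push_cast; rfl
  have m2 : (x : ZMod N) ≠ 0 := by
    intro h
    apply h2
    apply intcast_inj (N := N)
    · rcases abs_cases x with h | h <;> rcases abs_cases (x - 0) with h' | h' <;> omega
    · rw [h]; push_cast; rfl
  have m3 : (x : ZMod N) ≠ 1 := by
    intro h
    apply h3
    apply intcast_inj (N := N)
    · rcases abs_cases x with h | h <;> rcases abs_cases (x - 1) with h' | h' <;> omega
    · rw [h]; push_cast; rfl
  rw [Equiv.swap_apply_of_ne_of_ne m2 m3, Equiv.swap_apply_of_ne_of_ne m1 m2]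

theorem bZ_inv_neg_one : bZ⁻¹ (-1) = 1 := by
  rw [Equiv.Perm.inv_eq_iff_eq, bZ_one]
theorem bZ_inv_zero : bZ⁻¹ 0 = -1 := by
  rw [Equiv.Perm.inv_eq_iff_eq, bZ_neg_one]
theorem bZ_inv_one : bZ⁻¹ 1 = 0 := by
  rw [Equiv.Perm.inv_eq_iff_eq, bZ_zero]
theorem bZ_inv_fix (x : ℤ) (h : 1 < |x|) : bZ⁻¹ x = x := by
  rw [Equiv.Perm.inv_eq_iff_eq, bZ_fix x h]

theorem abs_bZ (x : ℤ) : |bZ x| ≤ |x| + 1 ∧ |bZ⁻¹ x| ≤ |x| + 1 := by
  by_cases h1 : x = -1
  · subst h1; rw [bZ_neg_one, bZ_inv_neg_one]; decide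
  by_cases h2 : x = 0
  · subst h2; rw [bZ_zero, bZ_inv_zero]; decide
  by_cases h3 : x = 1
  · subst h3; rw [bZ_one, bZ_inv_one]; decide
  have hx1 : 1 < |x| := by
    rcases abs_cases x with h | h <;> omega
  rw [bZ_fix x hx1, bZ_inv_fix x hx1]
  constructor <;> omega

theorem genZ_abs (s : Fin 4) (x : ℤ) : |genZ s x| ≤ |x| + 1 := by
  fin_cases s
  · show |x + 1| ≤ |x| + 1
    exact (abs_add_le _ _).trans (by simp)
  · show |tZ⁻¹ x| ≤ |x| + 1
    have : tZ⁻¹ x = x - 1 := by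
      rw [Equiv.Perm.inv_eq_iff_eq]; show x = x - 1 + 1; ring
    rw [this]
    exact (abs_sub _ _).trans (by simp)
  · exact (abs_bZ x).1
  · exact (abs_bZ x).2

theorem genC_cast {N : ℕ} (hN : 5 ≤ N) (s : Fin 4) (x : ℤ) (hx : |x| + 3 ≤ N) :
    genC N s (x : ZMod N) = ((genZ s x : ℤ) : ZMod N) := by
  fin_cases s
  · show (x : ZMod N) + 1 = ((x + 1 : ℤ) : ZMod N)
    push_cast; rfl
  · show (Equiv.addRight (1 : ZMod N))⁻¹ (x : ZMod N) = ((tZ⁻¹ x : ℤ) : ZMod N)
    have : tZ⁻¹ x = x - 1 := by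
      rw [Equiv.Perm.inv_eq_iff_eq]; show x = x - 1 + 1; ring
    rw [this, Equiv.Perm.inv_eq_iff_eq]
    show (x : ZMod N) = ((x - 1 : ℤ) : ZMod N) + 1
    push_cast; ring
  · exact b_cast hN x (by omega)
  · show (Equiv.swap (-1 : ZMod N) 0 * Equiv.swap (0 : ZMod N) 1)⁻¹ (x : ZMod N) =
      ((bZ⁻¹ x : ℤ) : ZMod N)
    rw [Equiv.Perm.inv_eq_iff_eq, b_cast hN _ (by have := (abs_bZ x).2; omega),
      ais]

theorem lift {N : ℕ} (hN : 5 ≤ N) (l : List (Fin 4)) (x : ℤ) (hx : |x| + l.length + 3 ≤ N) :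
    (l.map (genC N)).prod (x : ZMod N) = (((l.map genZ).prod x : ℤ) : ZMod N) ∧
      |(l.map genZ).prod x| ≤ |x| + l.length := by
  induction l with
  | nil => simp
  | cons s l ih =>
    rw [List.length_cons] at hx
    push_cast at hx
    obtain ⟨h1, h2⟩ := ih (by omega)
    rw [List.map_cons, List.prod_cons, List.map_cons, List.prod_cons, Equiv.Perm.mul_apply,
      Equiv.Perm.mul_apply, h1, genC_cast hN s _ (by omega)]
    refine ⟨rfl, (genZ_abs s _).trans ?_⟩
    rw [List.length_cons]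
    push_cast
    omega

/-- The shift of a letter. -/
def sh : Fin 4 → ℤ := ![1, -1, 0, 0]

theorem sh_abs (s : Fin 4) : |sh s| ≤ 1 := by fin_cases s <;> simp [sh]

theorem far (l : List (Fin 4)) (x : ℤ) (hx : (l.length : ℤ) + 1 < |x|) :
    (l.map genZ).prod x = x + (l.map sh).sum ∧ |(l.map sh).sum| ≤ l.length := by
  induction l with
  | nil => simp
  | cons s l ih =>
    rw [List.length_cons] at hx
    push_cast at hx
    obtain ⟨h1, h2⟩ := ih (by omega)
    rw [List.map_cons, List.prod_cons, Equiv.Perm.mul_apply, h1, List.map_cons, List.sum_cons,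
      List.length_cons]
    have h3 : 1 < |x + (l.map sh).sum| := by
      have := abs_sub_abs_le_abs_sub x (-(l.map sh).sum)
      rw [abs_neg, sub_neg_eq_add] at this
      omega
    have h4 := sh_abs s
    refine ⟨?_, ?_⟩
    · fin_cases s
      · show x + (l.map sh).sum + 1 = x + (1 + (l.map sh).sum)
        ring
      · show tZ⁻¹ (x + (l.map sh).sum) = x + (-1 + (l.map sh).sum)
        rw [Equiv.Perm.inv_eq_iff_eq]
        show _ = x + (-1 + (l.map sh).sum) + 1
        ring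
      · show bZ _ = x + (0 + (l.map sh).sum)
        rw [bZ_fix _ h3, zero_add]
      · show bZ⁻¹ _ = x + (0 + (l.map sh).sum)
        rw [bZ_inv_fix _ h3, zero_add]
    · push_cast
      exact (abs_add_le _ _).trans (by omega)

/-- A long cycle sees exactly the action on `ℤ`. -/
theorem agree {N k : ℕ} (hN : 4 * k + 16 ≤ N) (l l' : List (Fin 4)) (hl : l.length ≤ k)
    (hl' : l'.length ≤ k) :
    (l.map genZ).prod = (l'.map genZ).prod ↔ (l.map (genC N)).prod = (l'.map (genC N)).prod := by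
  have : NeZero N := ⟨by omega⟩
  constructor
  · intro h
    ext1 x
    have h1 : ((x.valMinAbs : ℤ) : ZMod N) = x := ZMod.coe_valMinAbs x
    have h2 : x.valMinAbs.natAbs ≤ N / 2 := ZMod.natAbs_valMinAbs_le x
    have h3 : |x.valMinAbs| + k + 3 ≤ N := by
      rw [Int.abs_eq_natAbs]; omega
    rw [← h1, (lift (by omega) l x.valMinAbs (by omega)).1,
      (lift (by omega) l' x.valMinAbs (by omega)).1, h]
  · intro h
    have near : ∀ x : ℤ, |x| ≤ k + 3 → (l.map genZ).prod x = (l'.map genZ).prod x := by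
      intro x hx
      obtain ⟨a1, a2⟩ := lift (N := N) (by omega) l x (by omega)
      obtain ⟨b1, b2⟩ := lift (N := N) (by omega) l' x (by omega)
      rw [h, b1] at a1
      apply (intcast_inj (N := N) _ a1).symm
      refine lt_of_le_of_lt (abs_sub _ _) ?_
      omega
    ext1 x
    by_cases hx : |x| ≤ k + 3
    · exact near x hx
    · have c0 : |(k + 3 : ℤ)| = k + 3 := abs_of_nonneg (by positivity)
      have c1 := near (k + 3) (le_of_eq c0)
      rw [(far l (k + 3) (by omega)).1, (far l' (k + 3) (by omega)).1] at c1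
      rw [(far l x (by omega)).1, (far l' x (by omega)).1]
      omega

theorem finite_words (k : ℕ) : {l : List (Fin 4) | l.length ≤ k}.Finite :=
  List.finite_length_le (Fin 4) k

theorem ballZ_finite (k : ℕ) : (ballZ k).Finite := by
  refine ((finite_words k).image fun l => (l.map genZ).prod).subset ?_
  rintro g ⟨l, hl, rfl⟩
  exact ⟨l, hl, rfl⟩

theorem growthZ_mul (m n : ℕ) : growthZ (m + n) ≤ growthZ m * growthZ n := by
  unfold growthZ
  have hsub : ballZ (m + n) ⊆ (fun p : Equiv.Perm ℤ × Equiv.Perm ℤ => p.1 * p.2) ''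
      (ballZ m ×ˢ ballZ n) := by
    rintro g ⟨l, hl, rfl⟩
    refine ⟨(((l.take m).map genZ).prod, ((l.drop m).map genZ).prod), ⟨⟨_, ?_, rfl⟩,
      ⟨_, ?_, rfl⟩⟩, ?_⟩
    · simp
    · simp; omega
    · show ((l.take m).map genZ).prod * ((l.drop m).map genZ).prod = _
      rw [← List.prod_append, ← List.map_append, List.take_append_drop]
  have hfin : (ballZ m ×ˢ ballZ n).Finite := (ballZ_finite m).prod (ballZ_finite n)
  refine (Set.ncard_le_ncard hsub (hfin.image _)).trans ?_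
  refine (Set.ncard_image_le hfin).trans ?_
  rw [Set.ncard_prod]

theorem growthZ_pos (k : ℕ) : 1 ≤ growthZ k := by
  unfold growthZ
  rw [Nat.succ_le_iff, Set.ncard_pos (ballZ_finite k)]
  exact ⟨1, [], by simp, by simp⟩

/-- A word for an element of the ball. -/
theorem choose_word {α : Type*} (P : List (Fin 4) → Prop) (φ : List (Fin 4) → α) :
    ∃ w : α → List (Fin 4), ∀ g, (∃ l, P l ∧ φ l = g) → P (w g) ∧ φ (w g) = g := by
  classical
  refine ⟨fun g => if h : ∃ l, P l ∧ φ l = g then Classical.choose h else [], fun g h => ?_⟩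
  simp only [dif_pos h]
  exact Classical.choose_spec h

theorem prod_eq_of_cycles (u : ℕ → ℕ) (l l' : List (Fin 4))
    (h : ∀ j, (l.map (genC (u j))).prod = (l'.map (genC (u j))).prod) :
    (l.map (gen u)).prod = (l'.map (gen u)).prod := by
  ext1 ⟨j, x⟩
  rw [prod_apply, prod_apply, h j]

theorem cycle_eq_of_prod (u : ℕ → ℕ) (l l' : List (Fin 4))
    (h : (l.map (gen u)).prod = (l'.map (gen u)).prod) (j : ℕ) :
    (l.map (genC (u j))).prod = (l'.map (genC (u j))).prod := by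
  ext1 x
  have h1 := prod_apply u l j x
  rw [h, prod_apply] at h1
  exact (eq_of_heq (Sigma.mk.inj h1).2).symm

theorem growthZ_le (u : ℕ → ℕ) (hm : StrictMono u) (hu : ∀ j, 5 ≤ u j) (k : ℕ) :
    growthZ k ≤ growth u k := by
  obtain ⟨w, hw⟩ := choose_word (fun l => l.length ≤ k) fun l => (l.map genZ).prod
  unfold growthZ growth
  refine Set.ncard_le_ncard_of_injOn (fun g => ((w g).map (gen u)).prod) ?_ ?_
    (ball_finite u hu k)
  · intro g hg
    exact ⟨w g, (hw g hg).1, rfl⟩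
  · intro g hg g' hg' h
    have hj : 4 * k + 16 ≤ u (4 * k + 16) := hm.le_apply
    have h1 := cycle_eq_of_prod u _ _ h (4 * k + 16)
    have h2 := (agree hj (w g) (w g') (hw g hg).1 (hw g' hg').1).mpr h1
    rw [← (hw g hg).2, ← (hw g' hg').2]
    exact h2

theorem growth_le_Z (u : ℕ → ℕ) (hu : ∀ j, 5 ≤ u j) (k j : ℕ)
    (hj : ∀ i, j ≤ i → 4 * k + 16 ≤ u i) :
    growth u k ≤ growthZ k * ∏ i : Fin j, (u i).factorial := by
  have hne : ∀ i, NeZero (u i) := fun i => ⟨by have := hu i; omega⟩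
  obtain ⟨w, hw⟩ := choose_word (fun l => l.length ≤ k) fun l => (l.map (gen u)).prod
  have hfin : (ballZ k ×ˢ (Set.univ : Set (∀ i : Fin j, Equiv.Perm (ZMod (u i))))).Finite :=
    (ballZ_finite k).prod Set.finite_univ
  have key : growth u k ≤
      (ballZ k ×ˢ (Set.univ : Set (∀ i : Fin j, Equiv.Perm (ZMod (u i))))).ncard := by
    unfold growth
    refine Set.ncard_le_ncard_of_injOn
      (fun g => (((w g).map genZ).prod, fun i : Fin j => ((w g).map (genC (u i))).prod)) ?_ ?_ hfin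
    · intro g hg
      exact ⟨⟨w g, (hw g hg).1, rfl⟩, Set.mem_univ _⟩
    · intro g hg g' hg' h
      have h1 := congrArg Prod.fst h
      have h2 := congrArg Prod.snd h
      dsimp only at h1 h2
      have h3 : (((w g).map (gen u)).prod) = (((w g').map (gen u)).prod) := by
        apply prod_eq_of_cycles
        intro i
        rcases lt_or_ge i j with hi | hi
        · exact congrFun h2 ⟨i, hi⟩
        · exact (agree (hj i hi) (w g) (w g') (hw g hg).1 (hw g' hg').1).mp h1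
      rw [← (hw g hg).2, ← (hw g' hg').2]
      exact h3
  refine key.trans (le_of_eq ?_)
  rw [Set.ncard_prod, Set.ncard_univ, Nat.card_pi]
  unfold growthZ
  congr 1
  apply Finset.prod_congr rfl
  intro i _
  rw [Nat.card_perm, Nat.card_zmod]

theorem log_growth_le (u : ℕ → ℕ) (hu : ∀ j, 5 ≤ u j) (k j : ℕ)
    (hj : ∀ i, j ≤ i → 4 * k + 16 ≤ u i) :
    Real.log (growth u k) ≤ Real.log (growthZ k) +
      ∑ i ∈ Finset.range j, Real.log ((u i).factorial) := by
  have h := growth_le_Z u hu k j hj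
  have h1 : (growth u k : ℝ) ≤ growthZ k * ∏ i : Fin j, ((u i).factorial : ℝ) := by
    exact_mod_cast h
  have h2 : (1 : ℝ) ≤ growth u k := by exact_mod_cast growth_pos u hu k
  have h3 : (1 : ℝ) ≤ growthZ k := by exact_mod_cast growthZ_pos k
  have h4 : ∀ i : Fin j, ((u i).factorial : ℝ) ≠ 0 := fun i => by
    exact_mod_cast (Nat.factorial_pos _).ne'
  have h5 := Real.log_le_log (by linarith) h1
  rw [Real.log_mul (by linarith) (Finset.prod_ne_zero_iff.mpr fun i _ => h4 i),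
    Real.log_prod (fun i _ => h4 i)] at h5
  rw [Finset.sum_range]
  exact h5

/-- Existence of the growth rate, in logarithmic form. -/
theorem fekete (f : ℕ → ℕ) (hf : ∀ k, 1 ≤ f k) (hmul : ∀ m n, f (m + n) ≤ f m * f n) :
    ∃ l : ℝ, Filter.Tendsto (fun k : ℕ => Real.log (f k) / k) Filter.atTop (nhds l) ∧
      Filter.Tendsto (fun k : ℕ => (f k : ℝ) ^ (1 / (k : ℝ))) Filter.atTop (nhds (Real.exp l)) := by
  have hg : ∀ k, (1 : ℝ) ≤ f k := fun k => by exact_mod_cast hf k
  have hsub : Subadditive fun k => Real.log (f k) := by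
    intro m n
    have h1 : (f (m + n) : ℝ) ≤ f m * f n := by exact_mod_cast hmul m n
    have hm0 : (0 : ℝ) < f m := by linarith [hg m]
    have hn0 : (0 : ℝ) < f n := by linarith [hg n]
    rw [← Real.log_mul hm0.ne' hn0.ne']
    exact Real.log_le_log (by linarith [hg (m + n)]) h1
  have hbdd : BddBelow (Set.range fun k : ℕ => Real.log (f k) / k) := by
    refine ⟨0, ?_⟩
    rintro x ⟨k, rfl⟩
    exact div_nonneg (Real.log_nonneg (hg k)) (Nat.cast_nonneg k)
  have hlim := hsub.tendsto_lim hbdd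
  refine ⟨hsub.lim, hlim, ?_⟩
  have h1 := (Real.continuous_exp.tendsto hsub.lim).comp hlim
  refine h1.congr fun k => ?_
  rw [Function.comp_apply, Real.rpow_def_of_pos (by linarith [hg k])]
  congr 1
  ring

/-- **MP_dd51f8_al, sparse sequences.**  If `liminf_j (∑_{i<j} log (u_i !)) / u_j = 0`, then the
growth rate `λ_U` of B. H. Neumann's group `G_U` equals the growth rate `λ` of `B_∞`. -/
theorem result (u : ℕ → ℕ) (hm : StrictMono u) (_hodd : ∀ j, Odd (u j)) (h5 : 5 ≤ u 0)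
    (hs : ∀ ε : ℝ, 0 < ε → ∃ᶠ j in Filter.atTop,
      ∑ i ∈ Finset.range j, Real.log ((u i).factorial) ≤ ε * u j) :
    ∃ L : ℝ, Filter.Tendsto (fun k : ℕ => (growth u k : ℝ) ^ (1 / (k : ℝ))) Filter.atTop (nhds L) ∧
      Filter.Tendsto (fun k : ℕ => (growthZ k : ℝ) ^ (1 / (k : ℝ))) Filter.atTop (nhds L) := by
  have hu : ∀ j, 5 ≤ u j := fun j => h5.trans (hm.monotone (Nat.zero_le j))
  obtain ⟨a, ha, ha'⟩ := fekete (growth u) (growth_pos u hu) (growth_mul u hu)
  obtain ⟨b, hb, hb'⟩ := fekete growthZ growthZ_pos growthZ_mul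
  have hba : b ≤ a := by
    refine le_of_tendsto_of_tendsto' hb ha fun k => ?_
    apply div_le_div_of_nonneg_right _ (Nat.cast_nonneg k)
    apply Real.log_le_log
    · have := growthZ_pos k
      exact_mod_cast this
    · exact_mod_cast growthZ_le u hm hu k
  have hab : a ≤ b := by
    by_contra hcon
    rw [not_le] at hcon
    set δ := (a - b) / 3 with hδ
    have hδ0 : 0 < δ := by rw [hδ]; linarith
    have e1 : ∀ᶠ k : ℕ in Filter.atTop, a - δ < Real.log (growth u k) / k :=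
      ha.eventually (lt_mem_nhds (by linarith))
    have e2 : ∀ᶠ k : ℕ in Filter.atTop, Real.log (growthZ k) / k < b + δ :=
      hb.eventually (gt_mem_nhds (by linarith))
    obtain ⟨K, hK⟩ := Filter.eventually_atTop.mp (e1.and e2)
    obtain ⟨j, hj, hjs⟩ := (Filter.frequently_atTop.mp (hs (δ / 8) (by linarith))) (4 * K + 100)
    have huj : j ≤ u j := hm.le_apply
    obtain ⟨k, hk⟩ : ∃ k, k = (u j - 16) / 4 := ⟨_, rfl⟩
    have hk1 : 4 * k + 16 ≤ u j := by omega
    have hk2 : u j ≤ 8 * k := by omega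
    have hkK : K ≤ k := by omega
    have hk0 : 1 ≤ k := by omega
    obtain ⟨f1, f2⟩ := hK k hkK
    have hkr : (0 : ℝ) < k := by exact_mod_cast hk0
    have f3 := log_growth_le u hu k j fun i hi => hk1.trans (hm.monotone hi)
    have f4 : (u j : ℝ) ≤ 8 * k := by exact_mod_cast hk2
    rw [lt_div_iff₀ hkr] at f1
    rw [div_lt_iff₀ hkr] at f2
    have f5 : δ / 8 * (u j : ℝ) ≤ δ * k := by nlinarith
    have f6 : (a - δ) * k < (b + δ) * k + δ * k := by linarith
    have f7 : (a - δ) * k = (b + δ) * k + δ * k := by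
      have : a - δ = b + δ + δ := by rw [hδ]; ring
      rw [this]; ring
    linarith
  have hab' : a = b := le_antisymm hab hba
  refine ⟨Real.exp a, ha', ?_⟩
  rw [hab']
  exact hb'

end Pool.Agent.Results.MP_dd51f8_al.SparseEqual
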